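import Pool.Agent.Q97.UM.Base9
import Pool.Agent.Q97.UM.Rh
import Pool.Agent.H403R2.LGLocalA

set_option autoImplicit false

/-!
# MP_f0209c_nt: what the Alternative Hypothesis says relative to every Dirichlet polynomial

Assume the Riemann Hypothesis and the Alternative Hypothesis (as in the problem). Then for every `ε > 0` and every `K` there is `θ > 0` such that for
all large `T`, all `N ≤ T ^ θ`, ALL complex numbers `b_1, …, b_N` and all `1 ≤ k ≤ K`, with `B(t) = ∑ b_n n^(-1/2 - it)`: if the zeros with ordinate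
in `(T, 2T]` are weighted by `|B(γ)|²`, the mean number of zeros `γ'` at normalised distance `k / 2` from `γ` is `1 - 2 (1 - (-1)^k) / (π² k²)`, up to
`ε`. So a single Dirichlet polynomial for which one of these numbers is different disproves the Alternative Hypothesis.
-/

namespace Pool.Agent.Results.MP_f0209c_nt.EveryWeightUnderAH

open Filter Topology MeasureTheory Complex

noncomputable section

/-- multiplicity of `s` as a zero of the Riemann zeta function (order of vanishing at `s`) -/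
def zmult (s : ℂ) : ℕ := analyticOrderNatAt riemannZeta s

/-- the number of nontrivial zeros of `ζ` with ordinate in `(0, t]`, with multiplicity -/
def NZ (t : ℝ) : ℕ := ∑ᶠ s ∈ {s : ℂ | riemannZeta s = 0 ∧ 0 < s.re ∧ s.re < 1 ∧ 0 < s.im ∧ s.im ≤ t}, zmult s

/-- for `n ≥ 1`: the `n`-th positive ordinate `γ n` of a nontrivial zero of `ζ`, the ordinates being listed in nondecreasing order and repeated
according to multiplicity -/
def γ (n : ℕ) : ℝ := sInf {t : ℝ | n ≤ NZ t}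

/-- the normalised spacings `d_j` of the problem: `d_j = γ̃_{j+1} - γ̃_j`, `γ̃_j = γ_j log γ_j / 2π` -/
def d (j : ℕ) : ℝ := 1 / (2 * Real.pi) * γ (j + 1) * Real.log (γ (j + 1)) - 1 / (2 * Real.pi) * γ j * Real.log (γ j)

/-- the Alternative Hypothesis of the problem: the distance of `d_j` to `{1/2, 1, 3/2, …}` tends to `0` -/
def AH : Prop := ∀ ε : ℝ, 0 < ε → ∀ᶠ j : ℕ in atTop, ∃ m : ℕ, 1 ≤ m ∧ |d j - (m : ℝ) / 2| < ε

/-- the Dirichlet polynomial with coefficients `b_1, …, b_N` on the critical line -/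
def B (N : ℕ) (b : ℕ → ℂ) (t : ℝ) : ℂ := ∑ n ∈ Finset.Icc 1 N, b n * (n : ℂ) ^ (-(1 / 2 + t * I))

/-- the nontrivial zeros of zeta with ordinate in `(T, 2T]` -/
def zeros (T : ℝ) : Set ℂ := {s : ℂ | riemannZeta s = 0 ∧ 0 < s.re ∧ s.re < 1 ∧ T < s.im ∧ s.im ≤ 2 * T}

/-- the sum of `|B(γ)|²` over the zeros with ordinate in `(T, 2T]` -/
def Mass (T : ℝ) (N : ℕ) (b : ℕ → ℂ) : ℝ := ∑ᶠ s ∈ zeros T, ‖B N b s.im‖ ^ 2

/-- the number of zeros with ordinate in `(T, 2T]` whose normalised distance from `s` is within `1/8` of `k/2` -/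
def partners (T : ℝ) (k : ℕ) (s : ℂ) : ℕ :=
  {s' : ℂ | s' ∈ zeros T ∧ |(|s'.im - s.im| * Real.log T / (2 * Real.pi)) - k / 2| ≤ 1 / 8}.ncard

/-- the sum of `|B(γ)|²` times the number of partners of `γ` at normalised distance `k/2` -/
def Pairs (T : ℝ) (N : ℕ) (b : ℕ → ℂ) (k : ℕ) : ℝ := ∑ᶠ s ∈ zeros T, ‖B N b s.im‖ ^ 2 * partners T k s

/-- the numbers `1 - 4 / (π² k²)` (`k` odd), `1` (`k` even) -/
def c (k : ℕ) : ℝ := 1 - 2 * (1 - (-1) ^ k) / (Real.pi ^ 2 * k ^ 2)

lemma zeros_eq (T : ℝ) : zeros T = H370.zset riemannZeta T (2 * T) := by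
  ext s
  simp only [zeros, H370.zset, Set.mem_ofPred_eq]
  tauto

lemma mem_iff {T : ℝ} (hT : 1 ≤ T) (s : ℂ) : s ∈ zeros T ↔ s ∈ H370.Zf riemannZeta T (2 * T) := by
  rw [H370.mem_Zf H370.good_zeta hT, zeros_eq]

lemma zeros_coe {T : ℝ} (hT : 1 ≤ T) : zeros T = ((H370.Zf riemannZeta T (2 * T) : Finset ℂ) : Set ℂ) := by
  ext s
  rw [mem_iff hT]
  rfl

/-- normalised ordinates -/
def gt (n : ℕ) : ℝ := 1 / (2 * Real.pi) * γ n * Real.log (γ n)

lemma d_eq (n : ℕ) : d n = gt (n + 1) - gt n := rfl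

lemma NZ_eq (t : ℝ) : NZ t = SG.NZ t := rfl

lemma γ_eq (n : ℕ) : γ n = SG.ord n := rfl

/-- sums of consecutive spacings -/
lemma sums {ε : ℝ} {n₀ : ℕ} (h : ∀ j, n₀ ≤ j → ∃ m : ℕ, 1 ≤ m ∧ |d j - (m : ℝ) / 2| < ε) (n : ℕ) (hn : n₀ ≤ n) (l : ℕ) (hl : 1 ≤ l) :
    ∃ m : ℕ, l ≤ m ∧ |gt (n + l) - gt n - (m : ℝ) / 2| ≤ l * ε := by
  induction l, hl using Nat.le_induction with
  | base =>
    obtain ⟨m, h1, h2⟩ := h n hn
    refine ⟨m, h1, ?_⟩
    rw [← d_eq]
    simpa using h2.le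
  | succ l hl ih =>
    obtain ⟨m, h1, h2⟩ := ih
    obtain ⟨m', h3, h4⟩ := h (n + l) (by omega)
    refine ⟨m + m', by omega, ?_⟩
    rw [d_eq] at h4
    have e : gt (n + (l + 1)) - gt n - ((m + m' : ℕ) : ℝ) / 2 =
        (gt (n + l) - gt n - (m : ℝ) / 2) + (gt (n + l + 1) - gt (n + l) - (m' : ℝ) / 2) := by
      rw [← add_assoc]
      push_cast
      ring
    rw [e]
    refine (abs_add_le _ _).trans ?_
    push_cast
    linarith

/-- the index of a zero -/
lemma ord_NZ {s : ℂ} (h : riemannZeta s = 0) (h1 : 0 < s.re) (h2 : s.re < 1) (h3 : 0 < s.im) : γ (NZ s.im) = s.im := by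
  rw [γ_eq, NZ_eq]
  have hm := SG.zmult_pos h3 h
  have hj := SG.jump_one h h1 h2 h3
  have hn : 1 ≤ SG.NZ s.im := by
    have := hj 0 h3
    omega
  apply le_antisymm ((SG.ord_le_iff hn s.im).2 le_rfl)
  by_contra hlt
  push Not at hlt
  have h4 := hj _ hlt
  have h5 := SG.le_NZ_ord hn
  omega

/-- large zeros are simple on the Alternative Hypothesis -/
lemma simple {n₀ : ℕ} (h : ∀ j, n₀ ≤ j → ∃ m : ℕ, 1 ≤ m ∧ |d j - (m : ℝ) / 2| < 1 / 8) {s : ℂ} (h0 : riemannZeta s = 0) (h1 : 0 < s.re)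
    (h2 : s.re < 1) (h3 : 0 < s.im) (h4 : n₀ + 2 ≤ NZ s.im) : analyticOrderNatAt riemannZeta s = 1 := by
  have hm := SG.zmult_pos h3 h0
  have hj := SG.jump_one h0 h1 h2 h3
  by_contra hne
  have h5 : 2 ≤ SG.zmult s := by
    have : SG.zmult s ≠ 1 := hne
    omega
  have hn : γ (NZ s.im) = s.im := ord_NZ h0 h1 h2 h3
  have hn' : γ (NZ s.im - 1) = s.im := by
    rw [γ_eq, NZ_eq]
    rw [NZ_eq] at h4
    have hn1 : 1 ≤ SG.NZ s.im - 1 := by omega
    apply le_antisymm ((SG.ord_le_iff hn1 s.im).2 (by omega))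
    by_contra hlt
    push Not at hlt
    have h6 := hj _ hlt
    have h7 := SG.le_NZ_ord hn1
    omega
  obtain ⟨m, hm1, hm2⟩ := h (NZ s.im - 1) (by omega)
  have hd : d (NZ s.im - 1) = 0 := by
    unfold d
    rw [show NZ s.im - 1 + 1 = NZ s.im by omega, hn, hn', sub_self]
  rw [hd] at hm2
  have : (1 : ℝ) ≤ m := by exact_mod_cast hm1
  rw [abs_lt] at hm2
  linarith [hm2.1]

/-- change of normalisation -/
lemma change {T x y : ℝ} (hT : 1 ≤ T) (hx : T ≤ x) (hxy : x ≤ y) (hy : y ≤ 2 * T) :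
    |(1 / (2 * Real.pi) * y * Real.log y - 1 / (2 * Real.pi) * x * Real.log x) - (y - x) * Real.log T / (2 * Real.pi)| ≤ y - x := by
  have hpi := Real.pi_gt_three
  have hT0 : 0 < T := by linarith
  have hx0 : 0 < x := by linarith
  have hy0 : 0 < y := by linarith
  have e1 : Real.log x = Real.log T + Real.log (x / T) := by
    rw [Real.log_div hx0.ne' hT0.ne']; ring
  have e2 : Real.log y = Real.log T + Real.log (y / T) := by
    rw [Real.log_div hy0.ne' hT0.ne']; ring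
  have e3 : Real.log (y / T) = Real.log (x / T) + Real.log (y / x) := by
    rw [← Real.log_mul (by positivity) (by positivity)]
    congr 1
    field_simp
  have h1 : 0 ≤ Real.log (x / T) := Real.log_nonneg (by rw [le_div_iff₀ hT0]; linarith)
  have h2 : 0 ≤ Real.log (y / x) := Real.log_nonneg (by rw [le_div_iff₀ hx0]; linarith)
  have h3 : Real.log (y / x) ≤ y / x - 1 := Real.log_le_sub_one_of_pos (by positivity)
  have h4 : Real.log (x / T) ≤ 1 := by
    have : Real.log (x / T) ≤ x / T - 1 := Real.log_le_sub_one_of_pos (by positivity)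
    have h5 : x / T ≤ 2 := by rw [div_le_iff₀ hT0]; linarith
    linarith
  have h5 : y * Real.log (y / x) ≤ 2 * (y - x) := by
    have h6 : y * Real.log (y / x) ≤ y * (y / x - 1) := mul_le_mul_of_nonneg_left h3 hy0.le
    have h7 : y * (y / x - 1) = (y / x) * (y - x) := by field_simp
    have h8 : y / x ≤ 2 := by rw [div_le_iff₀ hx0]; linarith
    have h9 : (y / x) * (y - x) ≤ 2 * (y - x) := mul_le_mul_of_nonneg_right h8 (by linarith)
    linarith
  have h6 : 0 ≤ y * Real.log (y / x) := by positivity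
  have h7 : (y - x) * Real.log (x / T) ≤ (y - x) * 1 := mul_le_mul_of_nonneg_left h4 (by linarith)
  have h8 : 0 ≤ (y - x) * Real.log (x / T) := mul_nonneg (by linarith) h1
  have e : (1 / (2 * Real.pi) * y * Real.log y - 1 / (2 * Real.pi) * x * Real.log x) - (y - x) * Real.log T / (2 * Real.pi) =
      ((y - x) * Real.log (x / T) + y * Real.log (y / x)) / (2 * Real.pi) := by
    rw [e1, e2, e3]
    field_simp
    ring
  rw [e, abs_of_nonneg (by positivity), div_le_iff₀ (by positivity)]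
  nlinarith

lemma NZ_large (n : ℕ) : ∀ᶠ T : ℝ in atTop, n ≤ NZ T := by
  obtain ⟨t, ht⟩ := SG.NZ_unbounded n
  filter_upwards [eventually_ge_atTop t] with T hT
  rw [NZ_eq]
  exact ht.trans (SG.NZ_mono hT)

/-- the Alternative Hypothesis in terms of the zeros -/
lemma toAHz (hR : Pool.Agent.Q97.UM.RHz) (hA : AH) : Pool.Agent.Q97.UM.AHz := by
  intro ε A hε hA0
  obtain ⟨n₁, hn₁⟩ := eventually_atTop.1 (hA (1 / 8) (by norm_num))
  set ε' : ℝ := min (1 / 8) (ε / (16 * (A + 1))) with hε'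
  have hε'0 : 0 < ε' := by positivity
  obtain ⟨n₂, hn₂⟩ := eventually_atTop.1 (hA ε' hε'0)
  have hL := Real.tendsto_log_atTop
  filter_upwards [NZ_large (n₁ + n₂ + 2), eventually_ge_atTop (2 : ℝ), hL.eventually_ge_atTop (16 * Real.pi * A / ε),
    hL.eventually_ge_atTop (16 * Real.pi)] with T h1 h2 h3 h4
  have hpi := Real.pi_gt_three
  have hL0 : 0 < Real.log T := by linarith
  intro s hs
  rw [H370.mem_Zf H370.good_zeta (by linarith : (1 : ℝ) ≤ T)] at hs
  obtain ⟨s1, s2, s3, s4, s0⟩ := hs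
  have hsim : 0 < s.im := by linarith
  have hNs : n₁ + n₂ + 2 ≤ NZ s.im := h1.trans (by rw [NZ_eq, NZ_eq]; exact SG.NZ_mono s3.le)
  refine ⟨simple hn₁ s0 s1 s2 hsim (by omega), ?_⟩
  intro s' hs' hne hle
  rw [H370.mem_Zf H370.good_zeta (by linarith : (1 : ℝ) ≤ T)] at hs'
  obtain ⟨s1', s2', s3', s4', s0'⟩ := hs'
  have him : s'.im ≠ s.im := by
    intro h
    exact hne (Complex.ext (by rw [hR s' s0' s1' s2', hR s s0 s1 s2]) h)
  -- the ordered case
  have key : ∀ z z' : ℂ, riemannZeta z = 0 → 0 < z.re → z.re < 1 → T < z.im → z.im ≤ 2 * T → riemannZeta z' = 0 → 0 < z'.re → z'.re < 1 →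
      T < z'.im → z'.im ≤ 2 * T → z.im < z'.im → (z'.im - z.im) * Real.log T / (2 * Real.pi) ≤ A →
      ∃ k : ℕ, 1 ≤ k ∧ |(z'.im - z.im) * Real.log T / (2 * Real.pi) - k / 2| ≤ ε := by
    intro z z' a0 a1 a2 a3 a4 b0 b1 b2 b3 b4 hlt hA'
    have hz : 0 < z.im := by linarith
    have hz' : 0 < z'.im := by linarith
    have e1 := ord_NZ a0 a1 a2 hz
    have e2 := ord_NZ b0 b1 b2 hz'
    have hNz : n₁ + n₂ + 2 ≤ NZ z.im := h1.trans (by rw [NZ_eq, NZ_eq]; exact SG.NZ_mono a3.le)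
    have hj : NZ z.im + 1 ≤ NZ z'.im := by
      have := SG.jump_one b0 b1 b2 hz' z.im hlt
      have := SG.zmult_pos hz' b0
      rw [NZ_eq, NZ_eq]
      omega
    obtain ⟨l, hl⟩ : ∃ l, NZ z'.im = NZ z.im + l := ⟨NZ z'.im - NZ z.im, by omega⟩
    have hl1 : 1 ≤ l := by omega
    obtain ⟨m, hm1, hm2⟩ := sums hn₂ (NZ z.im) (by omega) l hl1
    have hch := change (by linarith : (1 : ℝ) ≤ T) a3.le hlt.le b4
    have egt : gt (NZ z.im + l) - gt (NZ z.im) =
        1 / (2 * Real.pi) * z'.im * Real.log z'.im - 1 / (2 * Real.pi) * z.im * Real.log z.im := by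
      unfold gt
      rw [← hl, e1, e2]
    rw [egt] at hm2
    have hlm : (l : ℝ) ≤ m := by exact_mod_cast hm1
    have hε8 : ε' ≤ 1 / 8 := min_le_left _ _
    have hε16 : ε' ≤ ε / (16 * (A + 1)) := min_le_right _ _
    have hl0 : (1 : ℝ) ≤ l := by exact_mod_cast hl1
    -- the difference of the ordinates is small
    have hyx : z'.im - z.im ≤ 2 * Real.pi * A / Real.log T := by
      rw [le_div_iff₀ hL0]
      rw [div_le_iff₀ (by positivity)] at hA'
      linarith
    have hyx1 : z'.im - z.im ≤ ε / 8 := by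
      refine hyx.trans ?_
      rw [div_le_iff₀ hL0]
      rw [div_le_iff₀ hε] at h3
      nlinarith
    have hyx2 : z'.im - z.im ≤ A / 8 := by
      refine hyx.trans ?_
      rw [div_le_iff₀ hL0]
      have := mul_le_mul_of_nonneg_left h4 hA0.le
      nlinarith
    rw [abs_le] at hch hm2
    have hl4 : (l : ℝ) ≤ 8 * (A + 1) := by
      have h5 : (l : ℝ) / 2 - l * ε' ≤ A + A / 8 := by linarith [hch.1, hch.2, hm2.1, hm2.2]
      have h6 : (l : ℝ) * ε' ≤ l * (1 / 8) := mul_le_mul_of_nonneg_left hε8 (by linarith)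
      linarith
    have hlε : (l : ℝ) * ε' ≤ ε / 2 := by
      calc (l : ℝ) * ε' ≤ 8 * (A + 1) * (ε / (16 * (A + 1))) := mul_le_mul hl4 hε16 hε'0.le (by positivity)
        _ = ε / 2 := by field_simp; norm_num
    refine ⟨m, by omega, ?_⟩
    rw [abs_le]
    constructor <;> linarith [hch.1, hch.2, hm2.1, hm2.2]
  rcases lt_or_gt_of_ne him with hlt | hlt
  · have ha : |s'.im - s.im| = s.im - s'.im := by rw [abs_of_neg (by linarith)]; ring
    rw [ha] at hle ⊢
    exact key s' s s0' s1' s2' s3' s4' s0 s1 s2 s3 s4 hlt hle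
  · have ha : |s'.im - s.im| = s'.im - s.im := abs_of_pos (by linarith)
    rw [ha] at hle ⊢
    exact key s s' s0 s1 s2 s3 s4 s0' s1' s2' s3' s4' hlt hle

/-- **The pair statistics of the Alternative Hypothesis, relative to every Dirichlet polynomial.** -/
theorem result (RH : RiemannHypothesis) (hAH : AH) : ∀ (ε : ℝ) (K : ℕ), 0 < ε → ∃ θ T₀ : ℝ, 0 < θ ∧ ∀ T : ℝ, T₀ ≤ T →
    (zeros T).Finite ∧ (∀ s ∈ zeros T, s.re = 1 / 2 ∧ analyticOrderNatAt riemannZeta s = 1) ∧
    ∀ N : ℕ, (N : ℝ) ≤ T ^ θ → ∀ b : ℕ → ℂ,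
      |Mass T N b - Real.log T / (2 * Real.pi) * ∫ t in T..(2 * T), ‖B N b t‖ ^ 2| ≤ ε * Mass T N b ∧
      ∀ k : ℕ, 1 ≤ k → k ≤ K → |Pairs T N b k - c k * Mass T N b| ≤ ε * Mass T N b := by
  have hR : Pool.Agent.Q97.UM.RHz := by
    intro s h0 h1 h2
    refine RH s h0 ?_ ?_
    · rintro ⟨n, hn⟩
      rw [hn] at h1
      simp at h1
      have : (0 : ℝ) ≤ n := n.cast_nonneg
      linarith
    · rintro rfl
      simp at h2
  have hZ := toAHz hR hAH
  intro ε K hε
  set ε₁ : ℝ := min (1 / 100) (ε / 100) with hε₁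
  have hε₁0 : 0 < ε₁ := by positivity
  have hε₁1 : ε₁ ≤ 1 / 100 := min_le_left _ _
  have hε₁2 : ε₁ ≤ ε / 100 := min_le_right _ _
  obtain ⟨θ₁, hθ₁, H1⟩ := Pool.Agent.Q97.UM.b_AHR hR hZ ε₁ K hε₁0
  obtain ⟨θ₂, hθ₂, hθ₂', H2⟩ := Pool.Agent.Q97.UM.b_SAMP ε₁ hε₁0
  have H3 := Pool.Agent.Q97.UM.mv_rel ε₁ hε₁0
  obtain ⟨T₀, hT₀⟩ := eventually_atTop.1 (((H1.and (H2.and H3)).and (hZ 1 1 one_pos one_pos)).and (eventually_ge_atTop (3 : ℝ)))
  refine ⟨min θ₁ θ₂, T₀, by positivity, ?_⟩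
  intro T hT
  obtain ⟨⟨⟨h4, h5, h6⟩, hs⟩, h7⟩ := hT₀ T hT
  have hT1 : (1 : ℝ) ≤ T := by linarith
  have hfin : (zeros T).Finite := by rw [zeros_coe hT1]; exact Finset.finite_toSet _
  refine ⟨hfin, ?_, ?_⟩
  · intro s hs'
    exact ⟨hR s hs'.1 hs'.2.1 hs'.2.2.1, (hs s ((mem_iff hT1 s).1 hs')).1⟩
  intro N hN0 b
  have hN₁ : (N : ℝ) ≤ T ^ θ₁ := hN0.trans (Real.rpow_le_rpow_of_exponent_le (by linarith) (min_le_left _ _))
  have hN₂ : (N : ℝ) ≤ T ^ θ₂ := hN0.trans (Real.rpow_le_rpow_of_exponent_le (by linarith) (min_le_right _ _))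
  have hN40 : (N : ℝ) ≤ T ^ (1 / 40 : ℝ) := hN₂.trans (Real.rpow_le_rpow_of_exponent_le (by linarith) hθ₂')
  obtain ⟨_, _, a3⟩ := h5 N hN₂ b
  have a4 := h6 N hN40 b
  have eM : Mass T N b = ∑ s ∈ H370.Zf riemannZeta T (2 * T), (Pool.Agent.Q97.UM.mz s : ℝ) * ‖Pool.Agent.Q97.UM.dp N b s.im‖ ^ 2 := by
    unfold Mass
    rw [zeros_coe hT1, finsum_mem_coe_finset]
    refine Finset.sum_congr rfl fun s hs' => ?_
    rw [(hs s hs').1]
    simp only [Nat.cast_one, one_mul]
    rfl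
  have eP : ∀ k : ℕ, Pairs T N b k = Pool.Agent.Q97.UM.PK T N b k := by
    intro k
    classical
    unfold Pairs Pool.Agent.Q97.UM.PK
    rw [zeros_coe hT1, finsum_mem_coe_finset]
    refine Finset.sum_congr rfl fun s hs' => ?_
    rw [(hs s hs').1]
    simp only [Nat.cast_one, one_mul]
    congr 1
    have e1 : {s' : ℂ | s' ∈ zeros T ∧ |(|s'.im - s.im| * Real.log T / (2 * Real.pi)) - k / 2| ≤ 1 / 8} =
        (((H370.Zf riemannZeta T (2 * T)).filter (fun s' => |(|s'.im - s.im| * Real.log T / (2 * Real.pi)) - k / 2| ≤ 1 / 8) :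
          Finset ℂ) : Set ℂ) := by
      ext s'
      simp only [Finset.coe_filter, Set.mem_ofPred_eq, mem_iff hT1]
    unfold partners
    rw [e1, Set.ncard_coe_finset, Finset.card_eq_sum_ones, Nat.cast_sum]
    refine Finset.sum_congr (by congr) fun s' hs'' => ?_
    rw [(hs s' (Finset.mem_filter.1 hs'').1).1]
  have hpi3 := Real.pi_gt_three
  have hpi4 := Real.pi_lt_four
  have hL0 : 0 < Real.log T := Real.log_pos (by linarith)
  set X := T * Pool.Agent.Q97.UM.N2 N b with hX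
  have hX0 : 0 ≤ X := by
    rw [hX]; unfold Pool.Agent.Q97.UM.N2; positivity
  have hLX : 0 ≤ Real.log T * X := by positivity
  have hMean : (Real.log T / (2 * Real.pi) * ∫ t in T..(2 * T), ‖B N b t‖ ^ 2) =
      Real.log T / (2 * Real.pi) * ∫ t in T..(2 * T), ‖Pool.Agent.Q97.UM.dp N b t‖ ^ 2 := rfl
  rw [← eM] at a3
  set M := Mass T N b with hM
  have hLX8 : Real.log T * X / 8 ≤ Real.log T / (2 * Real.pi) * X := by
    have : Real.log T / 8 ≤ Real.log T / (2 * Real.pi) := div_le_div_of_nonneg_left hL0.le (by positivity) (by linarith)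
    have := mul_le_mul_of_nonneg_right this hX0
    linarith
  have hLX6 : Real.log T / (2 * Real.pi) * X ≤ Real.log T * X / 6 := by
    have : Real.log T / (2 * Real.pi) ≤ Real.log T / 6 := div_le_div_of_nonneg_left hL0.le (by norm_num) (by linarith)
    have := mul_le_mul_of_nonneg_right this hX0
    linarith
  have hML : Real.log T * X ≤ 10 * M := by
    rw [abs_le] at a3
    have : ε₁ * Real.log T * X ≤ 1 / 100 * (Real.log T * X) := by
      rw [mul_assoc]
      exact mul_le_mul_of_nonneg_right hε₁1 hLX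
    linarith [a3.1]
  have hbd : ε₁ * Real.log T * X ≤ ε / 10 * M := by
    rw [mul_assoc]
    calc ε₁ * (Real.log T * X) ≤ ε / 100 * (10 * M) := mul_le_mul hε₁2 hML hLX (by positivity)
      _ = ε / 10 * M := by ring
  refine ⟨?_, ?_⟩
  · rw [hMean]
    have h8 : |Real.log T / (2 * Real.pi) * (∫ t in T..(2 * T), ‖Pool.Agent.Q97.UM.dp N b t‖ ^ 2) - Real.log T / (2 * Real.pi) * X| ≤
        ε₁ * Real.log T * X := by
      rw [← mul_sub, abs_mul, abs_of_nonneg (by positivity : 0 ≤ Real.log T / (2 * Real.pi))]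
      calc Real.log T / (2 * Real.pi) * |(∫ t in T..(2 * T), ‖Pool.Agent.Q97.UM.dp N b t‖ ^ 2) - X| ≤
          Real.log T / (2 * Real.pi) * (ε₁ * X) := mul_le_mul_of_nonneg_left a4 (by positivity)
        _ ≤ ε₁ * Real.log T * X := by
            have : Real.log T / (2 * Real.pi) * (ε₁ * X) = ε₁ * (Real.log T / (2 * Real.pi) * X) := by ring
            rw [this]
            have h9 : Real.log T / (2 * Real.pi) * X ≤ Real.log T * X := by linarith
            calc ε₁ * (Real.log T / (2 * Real.pi) * X) ≤ ε₁ * (Real.log T * X) := mul_le_mul_of_nonneg_left h9 hε₁0.le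
              _ = ε₁ * Real.log T * X := by ring
    have hM0 : 0 ≤ M := by linarith
    rw [abs_le] at a3 h8 ⊢
    have h10 : ε / 10 * M + ε / 10 * M ≤ ε * M := by nlinarith
    constructor <;> linarith [a3.1, a3.2, h8.1, h8.2]
  · intro k hk1 hk2
    have h8 := h4 N hN₁ b k hk1 hk2
    rw [← eP k] at h8
    have hck : |c k| ≤ 1 := by
      have hk : (1 : ℝ) ≤ k := by exact_mod_cast hk1
      have h9 : (0 : ℝ) ≤ 2 * (1 - (-1) ^ k) / (Real.pi ^ 2 * k ^ 2) := by
        have : (0 : ℝ) ≤ 1 - (-1) ^ k := by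
          rcases neg_one_pow_eq_or ℝ k with h | h <;> rw [h] <;> norm_num
        positivity
      have h10 : 2 * (1 - (-1) ^ k) / (Real.pi ^ 2 * (k : ℝ) ^ 2) ≤ 1 := by
        rw [div_le_one (by positivity)]
        have h11 : (2 : ℝ) * (1 - (-1) ^ k) ≤ 4 := by
          rcases neg_one_pow_eq_or ℝ k with h | h <;> rw [h] <;> norm_num
        have h12 : (9 : ℝ) * 1 ≤ Real.pi ^ 2 * (k : ℝ) ^ 2 := by
          apply mul_le_mul (by nlinarith) (by nlinarith) (by norm_num) (by positivity)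
        linarith
      unfold c
      rw [abs_le]
      constructor <;> linarith
    have h9 : |c k * (Real.log T / (2 * Real.pi)) * X - c k * M| ≤ ε₁ * Real.log T * X := by
      have : c k * (Real.log T / (2 * Real.pi)) * X - c k * M = -(c k * (M - Real.log T / (2 * Real.pi) * X)) := by ring
      rw [this, abs_neg, abs_mul]
      calc |c k| * |M - Real.log T / (2 * Real.pi) * X| ≤ 1 * (ε₁ * Real.log T * X) :=
            mul_le_mul hck a3 (abs_nonneg _) (by norm_num)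
        _ = ε₁ * Real.log T * X := one_mul _
    have hM0 : 0 ≤ M := by linarith
    have h10 : ε / 10 * M + ε / 10 * M ≤ ε * M := by nlinarith
    have h8' : |Pairs T N b k - c k * (Real.log T / (2 * Real.pi)) * X| ≤ ε₁ * Real.log T * X := h8
    rw [abs_le] at h8' h9 ⊢
    constructor <;> linarith [h8'.1, h8'.2, h9.1, h9.2]

end

end Pool.Agent.Results.MP_f0209c_nt.EveryWeightUnderAH
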