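import Pool.Agent.Q72.AL.FinB

/-!
# The Alternative Hypothesis fails with a rate

Assume the Riemann hypothesis. There is `ε > 0` such that for every large `X` some ordinate
`γ n ∈ [X, 384 X]` has a normalised spacing `d n` with `|d n - k / 2| > ε k / log (γ n)` for every
`k ≥ 1`. So the Alternative Hypothesis cannot hold with an error `o(1 / log γ)`, in no sequence of
windows `[X, 384 X]`. The same holds for the spacings `(γ (n+1) - γ n)(log (γ n) + a) / (2 π)`,
uniformly in the offset `a`, `|a| ≤ A` (`a` may depend on `X`).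

Idea of the proof. Assume that the spacings in the window are near half-integers with such an error.
Then the zeros are simple, well spaced, and `e^{2 i (log T + a)(t - t')}` is near `1` for the
ordinates `t, t'` near a height `T` of the window. The explicit formula writes the smooth sum
`Σ μ(m) m^{-1/2-iT} g(log m - v)` as the sum of `e^{i (t - T) v} e^{-2 (t - T)²} / ζ'(1/2 + i t)` over
the ordinates `t`; by the near-periodicity the latter takes nearly the same modulus at `v` and at
`v - 2 (log T + a)`, and by the functional equation at `v` and at `- v - log (T / 2 π)`. So the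
Möbius sums of length `c X` (`v = log (c X)`) and of length `≍ 1 / c` have nearly the same modulus at
almost all heights `T ∈ [X, 2X]`. Their mean squares are known (Montgomery and Vaughan); letting
`X → ∞`, for a smooth `B(z) = Σ μ²(m) / m · w(m / z)` this gives `B(z) = S + O(1 / z)`, `z → ∞`. But
the Mellin transform of `B` has the factor `1 / ζ(2 s + 2)`, with poles at `Re s = -3/4`:
a contradiction. The error in the near-periodicity is controlled by a reproducing kernel argument:
multiplication of the coefficients of an exponential sum by a Lipschitz function costs only the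
Lipschitz constant in mean square.
-/

set_option autoImplicit false

namespace Pool.Agent.Results.MP_f0209c_nt.FailsWithRate

/-- the multiplicity of `s` as a zero of the Riemann zeta function (order of vanishing at `s`) -/
noncomputable def zmult (s : ℂ) : ℕ := analyticOrderNatAt riemannZeta s

/-- `NZ t` is the number of nontrivial zeros of `ζ` with ordinate in `(0, t]`, counted with
multiplicity -/
noncomputable def NZ (t : ℝ) : ℕ :=
  ∑ᶠ s ∈ {s : ℂ | riemannZeta s = 0 ∧ 0 < s.re ∧ s.re < 1 ∧ 0 < s.im ∧ s.im ≤ t}, zmult s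

/-- for `n ≥ 1`: the `n`-th positive ordinate `γ n` of a nontrivial zero of `ζ`, the ordinates being
listed in nondecreasing order and repeated according to multiplicity -/
noncomputable def γ (n : ℕ) : ℝ := sInf {t : ℝ | n ≤ NZ t}

/-- the normalised spacings `d_n = γ_{n+1} log γ_{n+1} / 2π - γ_n log γ_n / 2π` -/
noncomputable def d (n : ℕ) : ℝ :=
  (γ (n + 1) * Real.log (γ (n + 1)) - γ n * Real.log (γ n)) / (2 * Real.pi)

/-- Assume the Riemann hypothesis. (1) There is `ε > 0` such that for all large `X` there is an
ordinate `γ n ∈ [X, 384 X]` with `|d n - k / 2| > ε k / log (γ n)` for every `k ≥ 1`. (2) For every `A`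
there is `ε > 0` such that for all large `X` and all `a ∈ [-A, A]` there is an ordinate
`γ n ∈ [X, 384 X]` with `|(γ (n+1) - γ n)(log (γ n) + a) / (2 π) - k / 2| > ε k / log (γ n)` for every
`k ≥ 1`. -/
theorem result : RiemannHypothesis →
    (∃ ε X0 : ℝ, 0 < ε ∧ ∀ X : ℝ, X0 ≤ X → ∃ n : ℕ, 1 ≤ n ∧ X ≤ γ n ∧ γ n ≤ 384 * X ∧
      ∀ k : ℕ, 1 ≤ k → ε * k / Real.log (γ n) < |d n - k / 2|) ∧
    ∀ A : ℝ, ∃ ε X0 : ℝ, 0 < ε ∧ ∀ X : ℝ, X0 ≤ X → ∀ a : ℝ, |a| ≤ A →
      ∃ n : ℕ, 1 ≤ n ∧ X ≤ γ n ∧ γ n ≤ 384 * X ∧
        ∀ k : ℕ, 1 ≤ k → ε * k / Real.log (γ n) <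
          |(γ (n + 1) - γ n) * (Real.log (γ n) + a) / (2 * Real.pi) - k / 2| :=
  fun RH => ⟨Pool.Agent.Q72.AL.FinB.finalD RH, Pool.Agent.Q72.AL.FinB.finalA RH⟩

end Pool.Agent.Results.MP_f0209c_nt.FailsWithRate
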