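import Pool.Agent.Q276.UR.C1
import Pool.Agent.Q276.UR.D3
import Pool.Agent.Q172.ZetaLim.Main
import Pool.Agent.Q172.Mem.G6

/-!
# The limit processes of the gaps between the zeta zeros, without any hypothesis

Let `δ_n` be the unfolded gaps between the ordinates of the nontrivial zeta zeros and look at the
two-sided sequence of the gaps from the `n`-th zero, `n` uniform in `1, …, N`.  The theorem describes
the limits in law of this random sequence, as `N → ∞` along a subsequence.  Nothing is assumed.  The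
GUE hypothesis (for all correlations) says that there is only one limit, the Palm version of the sine
process; the alternative hypothesis implies that every limit is a process of positive half-integers.
So the theorem describes all the patterns of half-integers that are possible under the alternative
hypothesis.

The set of the limits is compact and connected, so that there is either one limit or uncountably
many.  Every limit is stationary, has mean gap one on every shift invariant event (that is, in almost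
every ergodic component), and is rigid: the sum of `K` consecutive gaps is almost surely a function
of the gaps outside of the block, one and the same measurable function for all limits.  No limit is
exchangeable, hence none is a sequence of independent identically distributed gaps or a mixture of
such sequences (as for a Poisson or another renewal process).

Proof.  The linear rigidity in the mean of the gaps (`MP_7eacff_nt.UnconditionalRigidity`) passes to
the limit by Fatou's lemma.  It also gives the uniform integrability of the gaps, as a large gap makes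
the linear functional large at all the places nearby; so the limits are not concentrated at the
constant sequence.  Integration of the functional over an invariant event gives the mean.
-/

set_option autoImplicit false

open Filter MeasureTheory Topology

namespace Pool.Agent.Results.MP_f0209c_nt.LimitProcesses

/-- multiplicity of `s` as a zero of the Riemann zeta function (order of vanishing at `s`) -/
noncomputable def zmult (s : ℂ) : ℕ := analyticOrderNatAt riemannZeta s

/-- the number of nontrivial zeros of `ζ` with ordinate in `(0, t]`, with multiplicity -/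
noncomputable def NZ (t : ℝ) : ℕ :=
  ∑ᶠ s ∈ {s : ℂ | riemannZeta s = 0 ∧ 0 < s.re ∧ s.re < 1 ∧ 0 < s.im ∧ s.im ≤ t}, zmult s

/-- for `n ≥ 1`: the `n`-th positive ordinate `γ n` of a nontrivial zero of `ζ`, the ordinates being
listed in nondecreasing order and repeated according to multiplicity -/
noncomputable def γ (n : ℕ) : ℝ := sInf {t : ℝ | n ≤ NZ t}

/-- the unfolded gaps `δ_n = (γ_{n+1} - γ_n) / 2π * log (γ_n / 2π)` -/
noncomputable def δ (n : ℕ) : ℝ :=
  (γ (n + 1) - γ n) / (2 * Real.pi) * Real.log (γ n / (2 * Real.pi))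

/-- the normalized spacings `d_j` of the problem: `d_j = γ̃_{j+1} - γ̃_j`, `γ̃_j = γ_j log γ_j / 2π` -/
noncomputable def d (j : ℕ) : ℝ :=
  1 / (2 * Real.pi) * γ (j + 1) * Real.log (γ (j + 1)) - 1 / (2 * Real.pi) * γ j * Real.log (γ j)

/-- the alternative hypothesis: the distance of `d_j` to the positive half-integers `m/2` tends to
`0` -/
def AH : Prop := ∀ ε : ℝ, 0 < ε → ∀ᶠ j : ℕ in atTop, ∃ m : ℕ, 1 ≤ m ∧ |d j - (m : ℝ) / 2| < ε

/-- the gaps seen from the `n`-th zero: the two-sided sequence with `k`-th term `δ_{n+k}` (and `0`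
when `n + k < 1`) -/
noncomputable def seen (n : ℕ) : ℤ → ℝ :=
  fun k => if 1 ≤ (n : ℤ) + k then δ ((n : ℤ) + k).toNat else 0

/-- the shift of two-sided sequences -/
def shift (ω : ℤ → ℝ) : ℤ → ℝ := fun k => ω (k + 1)

/-- the limit processes: the probability measures `P` on two-sided sequences such that, along some
sequence of `N` tending to infinity, the law of the gaps seen from the `n`-th zero, `n` uniform in
`1, …, N`, converges weakly to `P` -/
def limits : Set (ProbabilityMeasure (ℤ → ℝ)) :=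
  {P | ∃ φ : ℕ → ℕ, StrictMono φ ∧ ∀ g : BoundedContinuousFunction (ℤ → ℝ) ℝ,
    Tendsto (fun j => (∑ n ∈ Finset.Icc 1 (φ j), g (seen n)) / (φ j : ℝ)) atTop
      (𝓝 (∫ ω, g ω ∂(P : Measure (ℤ → ℝ))))}

/-- the weights `w_J(k) = (1/J) ∑_{j=1}^J max(0, 1 - k/2^j)` -/
noncomputable def w (J k : ℕ) : ℝ :=
  (1 / J : ℝ) * ∑ j ∈ Finset.Icc 1 J, max 0 (1 - (k : ℝ) / 2 ^ j)

/-- `u_{J,K}(k) = (w_J(k) + w_J(k+1) + … + w_J(k+K-1)) / K` -/
noncomputable def u (J K k : ℕ) : ℝ := (1 / K : ℝ) * ∑ i ∈ Finset.range K, w J (k + i)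

lemma pos_ev : ∃ n0 : ℕ, ∀ n, n0 ≤ n → 0 ≤ δ n := by
  refine ⟨NZ (2 * Real.pi) + 1, fun n hn => ?_⟩
  have hpi := Real.pi_gt_three
  have hn1 : 1 ≤ n := by omega
  have h2 : 2 * Real.pi < SG.ord n := by
    by_contra hcon
    push Not at hcon
    have := (SG.ord_le_iff hn1 (2 * Real.pi)).mp hcon
    have h3 : NZ (2 * Real.pi) < n := by omega
    exact absurd this (not_le.mpr h3)
  have h3 : 0 ≤ Real.log (SG.ord n / (2 * Real.pi)) := by
    apply Real.log_nonneg
    rw [le_div_iff₀ (by positivity)]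
    linarith
  have hm := SG.ord_mono hn1 (Nat.le_succ n)
  show 0 ≤ (SG.ord (n + 1) - SG.ord n) / (2 * Real.pi) * Real.log (SG.ord n / (2 * Real.pi))
  exact mul_nonneg (div_nonneg (sub_nonneg.2 hm) (by positivity)) h3

lemma rigid_seq : ∃ C : ℝ, 0 < C ∧ Q172.ZetaLim.RigidSeq δ C := by
  have hx : ∀ n, Pool.Agent.Q276.LR.xx n = δ n - 1 := fun n => rfl
  have hw : ∀ J k, Pool.Agent.Q276.LR.wt J k = Q172.ZetaLim.w J k := fun J k => by
    unfold Pool.Agent.Q276.LR.wt Q172.ZetaLim.w
    rw [one_div]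
  have hu : ∀ J K k, Pool.Agent.Q276.LR.ut J K k = Q172.ZetaLim.u J K k := fun J K k => by
    unfold Pool.Agent.Q276.LR.ut Q172.ZetaLim.u
    rw [one_div]
    simp only [hw]
  obtain ⟨C, hC, h⟩ := Pool.Agent.Q276.UR.blocks_uncond
  refine ⟨C, hC, fun J K hJ hK => ?_⟩
  filter_upwards [h J K hJ hK] with N hN
  unfold Pool.Agent.Q276.LR.BB at hN
  simp only [hx, hu] at hN
  exact hN

/-- Without any hypothesis:

(1) the set of the limit processes is compact and connected (in particular not empty), so that there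
is either exactly one limit process or there are uncountably many;

(2) every limit process is supported by the sequences of nonnegative numbers and invariant under the
shift, its coordinates are integrable, and the mean of the gap `ω_0` is one on every shift invariant
event;

(3) the mean of `|ω_0 - 1|` is bounded away from `0` for all limit processes;

(4) for every `K ≥ 1` there is a measurable function `F` of the gaps outside of the block
`0 ≤ k < K` such that for every limit process `ω_0 + … + ω_{K-1} = F(ω)` almost surely;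

(5) quantitatively: there is a constant `C` such that for all `J, K ≥ 1` and every limit process the
mean of the distance between `ω_0 + … + ω_{K-1}` and
`K - ∑_{1 ≤ k ≤ 2^J} u_{J,K}(k) ((ω_{-k} - 1) + (ω_{K-1+k} - 1))` is at most
`C (1/√J + K (1 + log K)/J)`;

(6) no limit process is invariant under all exchanges of two coordinates;

(7) if the alternative hypothesis holds, every limit process takes values in the positive
half-integers almost surely. -/
theorem result :
    (IsCompact limits ∧ IsConnected limits ∧ ((∃ P, limits = {P}) ∨ ¬ limits.Countable)) ∧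
    (∀ P ∈ limits,
      (∀ᵐ ω ∂(P : Measure (ℤ → ℝ)), ∀ k, 0 ≤ ω k) ∧
      (P : Measure (ℤ → ℝ)).map shift = P ∧
      (∀ k, Integrable (fun ω : ℤ → ℝ => ω k) (P : Measure (ℤ → ℝ))) ∧
      ∀ A : Set (ℤ → ℝ), MeasurableSet A → shift ⁻¹' A = A →
        ∫ ω in A, ω 0 ∂(P : Measure (ℤ → ℝ)) = (P : Measure (ℤ → ℝ)).real A) ∧
    (∃ c : ℝ, 0 < c ∧ ∀ P ∈ limits, c ≤ ∫ ω, |ω 0 - 1| ∂(P : Measure (ℤ → ℝ))) ∧
    (∀ K : ℕ, 1 ≤ K → ∃ F : (ℤ → ℝ) → ℝ, Measurable F ∧
      (∀ ω ω' : ℤ → ℝ, (∀ k : ℤ, (k < 0 ∨ (K : ℤ) ≤ k) → ω k = ω' k) → F ω = F ω') ∧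
      ∀ P ∈ limits, ∀ᵐ ω ∂(P : Measure (ℤ → ℝ)), ∑ i ∈ Finset.range K, ω (i : ℤ) = F ω) ∧
    (∃ C : ℝ, 0 < C ∧ ∀ J K : ℕ, 1 ≤ J → 1 ≤ K → ∀ P ∈ limits,
      ∫ ω, |∑ i ∈ Finset.range K, (ω (i : ℤ) - 1) + ∑ k ∈ Finset.Icc 1 (2 ^ J),
        u J K k * ((ω (-(k : ℤ)) - 1) + (ω ((K : ℤ) - 1 + k) - 1))| ∂(P : Measure (ℤ → ℝ)) ≤
      C * (1 / Real.sqrt J + K * (1 + Real.log K) / J)) ∧
    (∀ P ∈ limits, ¬ ∀ a b : ℤ,
      (P : Measure (ℤ → ℝ)).map (fun ω k => ω (Equiv.swap a b k)) = P) ∧
    (AH → ∀ P ∈ limits, ∀ᵐ ω ∂(P : Measure (ℤ → ℝ)), ∀ k : ℤ, ∃ m : ℕ, 1 ≤ m ∧ ω k = (m : ℝ) / 2) := by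
  obtain ⟨n0, hn0⟩ := pos_ev
  obtain ⟨C, hC, hrig⟩ := rigid_seq
  obtain ⟨C1, hC1, hmean⟩ := Pool.Agent.Q276.LR.mean_dev
  obtain ⟨c, hc, hspread⟩ := Pool.Agent.Q276.UR.spread_uncond
  obtain ⟨C0, hC0, hall⟩ := Q172.ZetaLim.mean_all (d := δ) hC1 hmean
  have ht := Q172.ZetaLim.tight hC0 hall
  have hlim : ∀ P : ProbabilityMeasure (ℤ → ℝ), P ∈ limits ↔
      Q172.ZetaLim.IsLim (Q172.ZetaLim.seen δ) P := fun P => Iff.rfl
  have hset : limits = {P | Q172.ZetaLim.IsLim (Q172.ZetaLim.seen δ) P} := rfl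
  have hint : ∀ P ∈ limits, ∀ k, Integrable (fun ω : ℤ → ℝ => ω k) (P : Measure (ℤ → ℝ)) :=
    fun P hP k => Q172.ZetaLim.integrable_coord hC0 hall ((hlim P).1 hP) k
  have hsp : ∀ P ∈ limits, c ≤ ∫ ω, |ω 0 - 1| ∂(P : Measure (ℤ → ℝ)) := fun P hP =>
    Q172.ZetaLim.spread hn0 hC hrig hspread ((hlim P).1 hP) (hint P hP)
  obtain ⟨h1, h2⟩ := Q172.ZetaLim.isLim_connected (Q172.ZetaLim.seen δ) ht
  refine ⟨⟨h1, h2, Q172.ZetaLim.singleton_or_uncountable h2⟩, fun P hP => ⟨?_, ?_, ?_, ?_⟩,
    ⟨c, hc, hsp⟩, fun K hK => ?_, ⟨C, hC, fun J K hJ hK P hP => ?_⟩, fun P hP => ?_, fun hAH P hP => ?_⟩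
  · exact ae_all_iff.2 fun k => Q172.ZetaLim.nonneg hn0 ((hlim P).1 hP) k
  · exact Q172.ZetaLim.map_shift ((hlim P).1 hP)
  · exact hint P hP
  · intro A hA hinv
    exact Q172.ZetaLim.mean_one hrig ((hlim P).1 hP) (hint P hP) hA hinv
  · obtain ⟨F, hF1, hF2, hF3⟩ := Q172.ZetaLim.det hK
    exact ⟨F, hF1, hF2, fun P hP => hF3 δ C hrig P ((hlim P).1 hP)⟩
  · exact (Q172.ZetaLim.rigid hrig ((hlim P).1 hP) hJ hK).2
  · exact Q172.ZetaLim.not_exch hrig ((hlim P).1 hP) (hint P hP) (lt_of_lt_of_le hc (hsp P hP))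
  · have hP' : Q172.ZetaLim.IsLim (Q172.ZetaLim.seen Q278.GF.dl) P := (hlim P).1 hP
    exact Q172.Mem.half hAH hP'

end Pool.Agent.Results.MP_f0209c_nt.LimitProcesses
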