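import Pool.Agent.Q172.Mem.G6

/-!
# The gaps between the zeta zeros have long memory, without any hypothesis

Let `δ_n` be the unfolded gaps between the ordinates of the nontrivial zeta zeros and look at the
two-sided sequence `ω = seen n` of the gaps from the `n`-th zero, `n` uniform in `1, …, N`.  A limit
process is a weak limit `P` of the law of `ω` as `N → ∞` along some sequence.  On the Alternative
Hypothesis these are the laws of the half-integer patterns (5).  Nothing is assumed in (1)-(4), in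
particular neither the Riemann hypothesis nor the Alternative Hypothesis.

(1), (2) The gaps have second moments in every limit process, and the variance of the sum of `L`
consecutive gaps is at most `C (1 + log L)²`.

(3) There are constants such that for every limit process `P` and every `n ≥ 1` there is an `m`
between `n` and `C n (1 + log n)^4` such that some finite linear combination `X` of the gaps up to
the index `0`, with `E X² ≤ 1`, has `E[X (ω_m - 1)] ≥ c/m`.

(4) For every `n ≥ 1` there is such an `X` with `E[X (ω_n - 1)] ≥ c/(n (1 + log n)^4)`.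

So the dependence of the gaps of a limit process cannot decay faster than `1/(n (log n)^4)`: no
limit process is `m`-dependent, a function of a finite state Markov chain with a spectral gap, or
`ρ`-mixing with rate `o(1/(n (log n)^4))`.  In particular no half-integer pattern of such a kind is
possible on the Alternative Hypothesis.  For the sine process (GUE) the order is `1/n`, so that (3)
has the right order of magnitude.

Proof.  Let `g(n)` be the norm of the orthogonal projection of `ω_n - 1` to the closed span of the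
past in `L²(P)`; it is nonincreasing.  If `g(m) ≤ c/m` for all `m` from `n` to `C n (1 + log n)^4`,
then the decomposition of a linear statistic into the innovations (differences of the projections to
consecutive pasts, as for martingale approximations), the sums by parts and (2) give that the smooth
statistic `∑_k f(k/L) (ω_k - 1)` has variance `O(c²)`, for some `L`.  But it converges in law to a
Gaussian variable with fixed variance (`MP_7eacff_nt.GaussianFluctuations`).
-/

set_option autoImplicit false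

open Filter Topology MeasureTheory

namespace Pool.Agent.Results.MP_f0209c_nt.LongMemory

/-- multiplicity of `s` as a zero of the Riemann zeta function (order of vanishing at `s`) -/
noncomputable def zmult (s : ℂ) : ℕ := analyticOrderNatAt riemannZeta s

/-- the number of nontrivial zeros of `ζ` with ordinate in `(0, t]`, with multiplicity -/
noncomputable def NZ (t : ℝ) : ℕ :=
  ∑ᶠ s ∈ {s : ℂ | riemannZeta s = 0 ∧ 0 < s.re ∧ s.re < 1 ∧ 0 < s.im ∧ s.im ≤ t}, zmult s

/-- for `n ≥ 1`: the `n`-th positive ordinate `γ n` of a nontrivial zero of `ζ`, the ordinates being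
listed in nondecreasing order and repeated according to multiplicity -/
noncomputable def γ (n : ℕ) : ℝ := sInf {t : ℝ | n ≤ NZ t}

/-- the unfolded gaps `δ_n = (γ_{n+1} - γ_n) / 2π * log (γ_n / 2π)` -/
noncomputable def δ (n : ℕ) : ℝ :=
  (γ (n + 1) - γ n) / (2 * Real.pi) * Real.log (γ n / (2 * Real.pi))

/-- the normalized spacings `d_j` of the problem: `d_j = γ̃_{j+1} - γ̃_j`, `γ̃_j = γ_j log γ_j / 2π` -/
noncomputable def d (j : ℕ) : ℝ :=
  1 / (2 * Real.pi) * γ (j + 1) * Real.log (γ (j + 1)) - 1 / (2 * Real.pi) * γ j * Real.log (γ j)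

/-- the gaps seen from the `n`-th zero: the two-sided sequence with `k`-th term `δ_{n+k}` (and `0`
when `n + k < 1`) -/
noncomputable def seen (n : ℕ) : ℤ → ℝ :=
  fun k => if 1 ≤ (n : ℤ) + k then δ ((n : ℤ) + k).toNat else 0

/-- the limit processes: the probability measures `P` on two-sided sequences such that, along some
sequence of `N` tending to infinity, the law of the gaps seen from the `n`-th zero, `n` uniform in
`1, …, N`, converges weakly to `P` -/
def limits : Set (ProbabilityMeasure (ℤ → ℝ)) :=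
  {P | ∃ φ : ℕ → ℕ, StrictMono φ ∧ ∀ g : BoundedContinuousFunction (ℤ → ℝ) ℝ,
    Tendsto (fun j => (∑ n ∈ Finset.Icc 1 (φ j), g (seen n)) / (φ j : ℝ)) atTop
      (𝓝 (∫ ω, g ω ∂(P : Measure (ℤ → ℝ))))}

/-- `CorrPast P n a`: some finite linear combination `X` of the centred gaps with indices `≤ 0` has
`E X² ≤ 1` and `E[X (ω_n - 1)] ≥ a` -/
def CorrPast (P : ProbabilityMeasure (ℤ → ℝ)) (n : ℕ) (a : ℝ) : Prop :=
  ∃ (K : ℕ) (b : ℕ → ℝ),
    ∫ ω, (∑ k ∈ Finset.range K, b k * (ω (-(k : ℤ)) - 1)) ^ 2 ∂(P : Measure (ℤ → ℝ)) ≤ 1 ∧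
    a ≤ ∫ ω, (∑ k ∈ Finset.range K, b k * (ω (-(k : ℤ)) - 1)) * (ω n - 1) ∂(P : Measure (ℤ → ℝ))

/-- the Alternative Hypothesis of the problem: the distance of `d_j` to `{1/2, 1, 3/2, …}` tends to
`0` -/
def AH : Prop := ∀ ε : ℝ, 0 < ε → ∀ᶠ j : ℕ in atTop, ∃ m : ℕ, 1 ≤ m ∧ |d j - (m : ℝ) / 2| < ε

/-- **Long memory of the gaps.** -/
theorem result : ∃ c C : ℝ, 0 < c ∧ 1 ≤ C ∧ ∀ P ∈ limits,
    (∀ k : ℤ, MemLp (fun ω : ℤ → ℝ => ω k - 1) 2 (P : Measure (ℤ → ℝ))) ∧
    (∀ L : ℕ, 1 ≤ L → ∫ ω, (∑ i ∈ Finset.range L, (ω (i : ℤ) - 1)) ^ 2 ∂(P : Measure (ℤ → ℝ)) ≤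
      C * (1 + Real.log L) ^ 2) ∧
    (∀ n : ℕ, 1 ≤ n → ∃ m : ℕ, n ≤ m ∧ (m : ℝ) ≤ C * n * (1 + Real.log n) ^ 4 ∧
      CorrPast P m (c / m)) ∧
    (∀ n : ℕ, 1 ≤ n → CorrPast P n (c / (n * (1 + Real.log n) ^ 4))) ∧
    (AH → ∀ᵐ ω ∂(P : Measure (ℤ → ℝ)), ∀ k : ℤ, ∃ m : ℕ, 1 ≤ m ∧ ω k = (m : ℝ) / 2) := by
  obtain ⟨A, hA, hblk⟩ := Q172.Mem.blk
  obtain ⟨c, C, hc, hC, hpred⟩ := Q172.Mem.pred_low
  refine ⟨c / (2 * C), max C A, by positivity, hC.trans (le_max_left _ _), fun P hP => ?_⟩
  have hP' : Q172.ZetaLim.IsLim (Q172.ZetaLim.seen Q278.GF.dl) P := hP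
  have hm : ∀ k : ℤ, MemLp (fun ω : ℤ → ℝ => ω k - 1) 2 (P : Measure (ℤ → ℝ)) :=
    fun k => Q172.Mem.memLp_P hP' k
  have F := Q172.Mem.filtP (Q172.ZetaLim.map_shift hP') hm
  have hC0 : 0 < C := by linarith
  refine ⟨hm, fun L hL => ?_, fun n hn => ?_, fun n hn => ?_, fun hAH => Q172.Mem.half hAH hP'⟩
  · refine (hblk P hP' L hL).trans ?_
    exact mul_le_mul_of_nonneg_right (le_max_right _ _) (sq_nonneg _)
  · obtain ⟨m, h1, h2, h3⟩ := hpred P hP' hm n hn
    have hn1 : (1 : ℝ) ≤ n := by exact_mod_cast hn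
    have hm0 : (0 : ℝ) < m := by
      have : 1 ≤ m := hn.trans h1
      exact_mod_cast this
    have hln : 0 ≤ Real.log n := Real.log_nonneg hn1
    refine ⟨m, h1, h2.trans ?_, ?_⟩
    · have : C ≤ max C A := le_max_left _ _
      gcongr
    · obtain ⟨K, b, h4, h5⟩ := Q172.Mem.gain_of hm m (by positivity : 0 < c / m) h3
      refine ⟨K, b, h4, le_trans ?_ h5⟩
      rw [div_div, div_div]
      apply div_le_div_of_nonneg_left hc.le (by positivity)
      nlinarith
  · obtain ⟨m, h1, h2, h3⟩ := hpred P hP' hm n hn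
    have hn1 : (1 : ℝ) ≤ n := by exact_mod_cast hn
    have hm0 : (0 : ℝ) < m := by
      have : 1 ≤ m := hn.trans h1
      exact_mod_cast this
    have hln : 0 ≤ Real.log n := Real.log_nonneg hn1
    have h6 : c / (C * n * (1 + Real.log n) ^ 4) ≤ c / m :=
      div_le_div_of_nonneg_left hc.le hm0 h2
    have h7 := h6.trans (h3.trans (F.g_anti h1))
    obtain ⟨K, b, h4, h5⟩ := Q172.Mem.gain_of hm n (by positivity) h7
    refine ⟨K, b, h4, le_trans (le_of_eq ?_) h5⟩
    have : (0 : ℝ) < 1 + Real.log n := by linarith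
    field_simp

end Pool.Agent.Results.MP_f0209c_nt.LongMemory
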